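import Pool.Agent.W345.GK.Inf

set_option autoImplicit false

/-! Project GK, part I3: rules for limits of Laurent series. -/

open Polynomial Finset

namespace Pool.Agent.W351.GK

open Pool.Agent.W345.GK

variable {F : Type} [Field F]

/-- no coefficients below `a` -/
def V (a : ℤ) (u : LS F) : Prop := ∀ j, j < a → u.coeff j = 0

theorem V.mono {a b : ℤ} {u : LS F} (h : V a u) (hb : b ≤ a) : V b u := fun j hj => h j (by omega)

theorem V_order (u : LS F) : V u.order u := fun _ hj => HahnSeries.coeff_eq_zero_of_lt_order hj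

theorem V.add {a : ℤ} {u v : LS F} (hu : V a u) (hv : V a v) : V a (u + v) := fun j hj => by
  rw [HahnSeries.coeff_add, hu j hj, hv j hj, add_zero]

theorem V.mul {a b : ℤ} {u v : LS F} (hu : V a u) (hv : V b v) : V (a + b) (u * v) := by
  intro j hj
  rw [HahnSeries.coeff_mul]
  refine Finset.sum_eq_zero fun ij hij => ?_
  have h := (mem_antidiagonal.1 hij).2.2
  by_cases h1 : ij.1 < a
  · rw [hu _ h1, zero_mul]
  · rw [hv _ (by omega), mul_zero]

theorem Lim_iff {f : ℕ → LS F} {g : LS F} :
    Lim f g ↔ ∃ C : ℤ, ∀ N : ℕ, V (N - C) (f N - g) := by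
  constructor
  · rintro ⟨C, h⟩
    exact ⟨C, fun N j hj => by rw [HahnSeries.coeff_sub, h N j hj, sub_self]⟩
  · rintro ⟨C, h⟩
    refine ⟨C, fun N j hj => ?_⟩
    have := h N j hj
    rw [HahnSeries.coeff_sub] at this
    exact sub_eq_zero.1 this

/-- finitely many exceptions do not matter -/
theorem Lim_of_eventually {f : ℕ → LS F} {g : LS F} (C : ℤ) (N0 : ℕ)
    (h : ∀ N : ℕ, N0 ≤ N → V (N - C) (f N - g)) : Lim f g := by
  rw [Lim_iff]
  have hex : ∀ n : ℕ, ∃ C' : ℤ, C ≤ C' ∧ ∀ N : ℕ, N < n → V (N - C') (f N - g) := by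
    intro n
    induction n with
    | zero => exact ⟨C, le_rfl, fun N hN => absurd hN (Nat.not_lt_zero N)⟩
    | succ n ih =>
      obtain ⟨C', hC, hC'⟩ := ih
      refine ⟨max C' (n - (f n - g).order), hC.trans (le_max_left _ _), fun N hN => ?_⟩
      rcases Nat.lt_succ_iff_lt_or_eq.1 hN with h1 | h1
      · refine (hC' N h1).mono ?_
        have := le_max_left C' (n - (f n - g).order)
        omega
      · subst h1
        refine (V_order _).mono ?_
        have := le_max_right C' (N - (f N - g).order)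
        omega
  obtain ⟨C', hC, hC'⟩ := hex N0
  refine ⟨C', fun N => ?_⟩
  by_cases hN : N < N0
  · exact hC' N hN
  · exact (h N (by omega)).mono (by omega)

/-- existence of limits -/
theorem exists_lim (f : ℕ → LS F) (C : ℤ)
    (h : ∀ (N : ℕ) (j : ℤ), j < N - C → (f (N + 1)).coeff j = (f N).coeff j) : ∃ g, Lim f g := by
  have h1 : ∀ (N k : ℕ) (j : ℤ), j < N - C → (f (N + k)).coeff j = (f N).coeff j := by
    intro N k
    induction k with
    | zero => intro j _; rfl
    | succ k ih =>
      intro j hj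
      rw [← ih j hj]
      exact h (N + k) j (by push_cast; omega)
  set c : ℤ → F := fun j => (f (j + C + 1).toNat).coeff j with hc
  have hb : BddBelow (Function.support c) := by
    refine ⟨min (-C) (f 0).order, fun j hj => ?_⟩
    by_contra hcon
    push Not at hcon
    apply hj
    have h2 : (j + C + 1).toNat = 0 := by
      have := min_le_left (-C) (f 0).order
      omega
    have h3 : j < (f 0).order := lt_of_lt_of_le hcon (min_le_right _ _)
    simp only [hc, h2]
    exact HahnSeries.coeff_eq_zero_of_lt_order h3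
  refine ⟨HahnSeries.ofSuppBddBelow c hb, C, fun N j hj => ?_⟩
  show (f N).coeff j = (f (j + C + 1).toNat).coeff j
  obtain ⟨k, hk⟩ : ∃ k : ℕ, N = (j + C + 1).toNat + k := ⟨N - (j + C + 1).toNat, by omega⟩
  conv_lhs => rw [hk]
  exact h1 _ k j (by omega)

theorem lim_unique {f : ℕ → LS F} {g g' : LS F} (h : Lim f g) (h' : Lim f g') : g = g' := by
  obtain ⟨C, hC⟩ := h
  obtain ⟨C', hC'⟩ := h'
  ext j
  have h1 := hC ((j + C + 1).toNat + (j + C' + 1).toNat) j (by push_cast; omega)
  have h2 := hC' ((j + C + 1).toNat + (j + C' + 1).toNat) j (by push_cast; omega)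
  exact h1.symm.trans h2

theorem lim_add {f f' : ℕ → LS F} {g g' : LS F} (h : Lim f g) (h' : Lim f' g') :
    Lim (fun N => f N + f' N) (g + g') := by
  obtain ⟨C, hC⟩ := h
  obtain ⟨C', hC'⟩ := h'
  refine ⟨max C C', fun N j hj => ?_⟩
  have m1 := le_max_left C C'
  have m2 := le_max_right C C'
  rw [HahnSeries.coeff_add, HahnSeries.coeff_add, hC N j (by omega), hC' N j (by omega)]

theorem lim_mul {f f' : ℕ → LS F} {g g' : LS F} (h : Lim f g) (h' : Lim f' g') :
    Lim (fun N => f N * f' N) (g * g') := by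
  rw [Lim_iff] at h h' ⊢
  obtain ⟨C, hC⟩ := h
  obtain ⟨C', hC'⟩ := h'
  set a := g.order with ha
  set b := min (-C') g'.order with hb
  have hfb : ∀ N : ℕ, V b (f' N) := by
    intro N
    have h1 : V b (f' N - g') := (hC' N).mono (by
      have := min_le_left (-C') g'.order
      omega)
    have h2 : V b g' := (V_order g').mono (min_le_right _ _)
    have := h1.add h2
    rwa [sub_add_cancel] at this
  refine ⟨max (C - b) (C' - a), fun N => ?_⟩
  have e : f N * f' N - g * g' = (f N - g) * f' N + g * (f' N - g') := by ring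
  rw [e]
  have m1 := le_max_left (C - b) (C' - a)
  have m2 := le_max_right (C - b) (C' - a)
  exact (((hC N).mul (hfb N)).mono (by omega)).add
    (((V_order g).mul (hC' N)).mono (by omega))

theorem lim_inv {f : ℕ → LS F} {g : LS F} (hg : g ≠ 0) (h : Lim f g) :
    Lim (fun N => (f N)⁻¹) g⁻¹ := by
  have h' := Lim_iff.1 h
  obtain ⟨C, hC⟩ := h'
  set o := g.order with ho
  have hinv : ∀ u : LS F, u ≠ 0 → u⁻¹.order = -u.order := by
    intro u hu
    have h1 := HahnSeries.order_mul hu (inv_ne_zero hu)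
    rw [mul_inv_cancel₀ hu, HahnSeries.order_one] at h1
    omega
  refine Lim_of_eventually (C + 2 * o) (o + C + 1).toNat fun N hN => ?_
  have hNo : o < N - C := by omega
  have hco : (f N).coeff o = g.coeff o := by
    have := hC N o hNo
    rw [HahnSeries.coeff_sub] at this
    exact sub_eq_zero.1 this
  have hgo : g.coeff o ≠ 0 := fun h0 => hg (HahnSeries.coeff_order_eq_zero.1 h0)
  have hf0 : f N ≠ 0 := by
    intro h0
    rw [h0, HahnSeries.coeff_zero] at hco
    exact hgo hco.symm
  have hord : (f N).order = o := by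
    refine le_antisymm (HahnSeries.order_le_of_coeff_ne_zero (by rw [hco]; exact hgo)) ?_
    rw [HahnSeries.le_order_iff_forall hf0]
    intro j hj
    have h1 := hC N j (by omega)
    rw [HahnSeries.coeff_sub, V_order g j hj, sub_zero] at h1
    exact h1
  have e : (f N)⁻¹ - g⁻¹ = ((-1 : LS F) * (f N - g)) * ((f N)⁻¹ * g⁻¹) := by
    field_simp
    ring
  show V (N - (C + 2 * o)) ((f N)⁻¹ - g⁻¹)
  rw [e]
  have v1 : V 0 (-1 : LS F) := by
    intro j hj
    rw [HahnSeries.coeff_neg, HahnSeries.coeff_one, if_neg (by omega), neg_zero]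
  have v2 : V (-o) (f N)⁻¹ := by
    have := V_order (f N)⁻¹
    rwa [hinv _ hf0, hord] at this
  have v3 : V (-o) g⁻¹ := by
    have := V_order g⁻¹
    rwa [hinv _ hg] at this
  exact ((v1.mul (hC N)).mul (v2.mul v3)).mono (by omega)

theorem coeff_Dx (q : ℕ) (f : LS F) (j : ℤ) :
    (Dx q f).coeff j = -(Ring.choose (j - q + 1) 1 • f.coeff (j - q + 1)) := by
  unfold Dx
  rw [HahnSeries.coeff_neg, HahnSeries.coeff_single_mul, one_mul, LaurentSeries.derivative_apply,
    LaurentSeries.hasseDeriv_coeff]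
  simp

theorem lim_Dx {f : ℕ → LS F} {g : LS F} (q : ℕ) (h : Lim f g) :
    Lim (fun N => Dx q (f N)) (Dx q g) := by
  obtain ⟨C, hC⟩ := h
  refine ⟨C - q + 1, fun N j hj => ?_⟩
  simp only [coeff_Dx]
  rw [hC N (j - q + 1) (by omega)]

theorem i3 : S_I3 := by
  intro F _
  refine ⟨?_, ?_, ?_, ?_, ?_, ?_, ?_, ?_⟩
  · rintro f ⟨C, hC⟩
    exact exists_lim f C hC
  · intro f g g' h h'
    exact lim_unique h h'
  · intro f f' g g' h h'
    exact lim_add h h'
  · intro f f' g g' h h'
    exact lim_mul h h'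
  · intro f g hg h
    exact lim_inv hg h
  · intro f g q h
    exact lim_Dx q h
  · rintro f g ⟨C, hC⟩
    exact ⟨C, fun N j hj => hC (N + 1) j (by push_cast; omega)⟩
  · rintro f f' g ⟨N0, hN0⟩ h
    obtain ⟨C, hC⟩ := Lim_iff.1 h
    refine Lim_of_eventually C N0 fun N hN => ?_
    rw [← hN0 N hN]
    exact hC N

end Pool.Agent.W351.GK
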